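import Pool.Agent.W250.RS.Stm2
import Pool.Agent.W52.RS.EL

set_option autoImplicit false

namespace Pool.Agent.W14.RS2

open Finset
open Pool.Agent.W250.RS Pool.Agent.W52.RS

theorem bern (n n' k : ℕ) (h : 2 * k ≤ n) (h1 : n ≤ n' + 1) (hn : 1 ≤ n) :
    n ^ k ≤ 2 * n' ^ k := by
  have hn1 : (1 : ℝ) ≤ n := by exact_mod_cast hn
  have hnR : (0 : ℝ) < n := by linarith
  have h2 : (n : ℝ) - 1 ≤ n' := by
    have : (n : ℝ) ≤ n' + 1 := by exact_mod_cast h1
    linarith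
  have h3 : 1 + (k : ℝ) * (-(1 / (n : ℝ))) ≤ (1 + (-(1 / (n : ℝ)))) ^ k := by
    apply one_add_mul_le_pow
    have : 1 / (n : ℝ) ≤ 1 := by rw [div_le_one hnR]; exact hn1
    linarith
  have h4 : (k : ℝ) * (1 / (n : ℝ)) ≤ 1 / 2 := by
    rw [mul_one_div, div_le_iff₀ hnR]
    have : ((2 * k : ℕ) : ℝ) ≤ n := by exact_mod_cast h
    push_cast at this
    linarith
  have h5 : (1 / 2 : ℝ) ≤ (1 + (-(1 / (n : ℝ)))) ^ k := by linarith
  have h6 : ((n : ℝ) - 1) ^ k = (n : ℝ) ^ k * (1 + (-(1 / (n : ℝ)))) ^ k := by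
    rw [← mul_pow]
    congr 1
    field_simp
    ring
  have h7 : ((n : ℝ) - 1) ^ k ≤ (n' : ℝ) ^ k := pow_le_pow_left₀ (by linarith) h2 k
  have h8 : (n : ℝ) ^ k * (1 / 2) ≤ (n : ℝ) ^ k * (1 + (-(1 / (n : ℝ)))) ^ k :=
    mul_le_mul_of_nonneg_left h5 (by positivity)
  have : ((n ^ k : ℕ) : ℝ) ≤ ((2 * n' ^ k : ℕ) : ℝ) := by
    push_cast
    linarith
  exact_mod_cast this

theorem cntB {R : Type} (X : Finset R) (k : ℕ) (F : Finset (Fin k → R)) (x : Fin k → R)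
    (J : Finset (Fin k)) (l : Fin k) (hl : l ∈ J) (hF : F ⊆ tup X k)
    (hx : ∀ y ∈ F, ∀ i, i ∉ J → y i = x i)
    (hinj : ∀ y ∈ F, ∀ y' ∈ F, (∀ i, i ≠ l → y i = y' i) → y = y') :
    F.card ≤ X.card ^ (J.card - 1) := by
  classical
  have hc : (Fintype.piFinset (fun _ : {i // i ∈ J.erase l} => X)).card =
      X.card ^ (J.card - 1) := by
    rw [Fintype.card_piFinset, prod_const, card_univ, Fintype.card_coe, card_erase_of_mem hl]
  rw [← hc]
  apply card_le_card_of_injOn (fun y i => y i.1)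
  · intro y hy
    exact mem_coe.2 (Fintype.mem_piFinset.2 fun i => mem_tup.1 (hF (mem_coe.1 hy)) _)
  · intro y hy y' hy' h
    apply hinj y (mem_coe.1 hy) y' (mem_coe.1 hy')
    intro i hi
    by_cases hiJ : i ∈ J
    · exact congrFun h ⟨i, mem_erase.2 ⟨hi, hiJ⟩⟩
    · rw [hx y (mem_coe.1 hy) i hiJ, hx y' (mem_coe.1 hy') i hiJ]

theorem richJ {R : Type} [DecidableEq R] (X : Finset R) (k K : ℕ) (J : Finset (Fin k))
    (G : ({i // i ∈ J} → R) → R) (W : Finset (Fin k → R)) (hW : W ⊆ tup X k)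
    (h : ∀ x ∈ W, K < ((tup X k).filter (fun y => G (fun i => y i.1) = G (fun i => x i.1) ∧
      ∀ i, i ∉ J → y i = x i)).card) :
    (W.image (fun x => G (fun i => x i.1))).card * K ≤ X.card ^ J.card := by
  classical
  have hc : (Fintype.piFinset (fun _ : {i // i ∈ J} => X)).card = X.card ^ J.card := by
    rw [Fintype.card_piFinset, prod_const, card_univ, Fintype.card_coe]
  have key := rich (Fintype.piFinset (fun _ : {i // i ∈ J} => X))
    (W.image (fun x (i : {i // i ∈ J}) => x i.1)) G K (by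
      intro u hu
      obtain ⟨x, hx, rfl⟩ := mem_image.1 hu
      refine ⟨Fintype.mem_piFinset.2 fun i => mem_tup.1 (hW hx) _, (h x hx).trans_le ?_⟩
      apply card_le_card_of_injOn (fun y (i : {i // i ∈ J}) => y i.1)
      · intro y hy
        have hy' := mem_filter.1 (mem_coe.1 hy)
        exact mem_coe.2 (mem_filter.2
          ⟨Fintype.mem_piFinset.2 fun i => mem_tup.1 hy'.1 _, hy'.2.1⟩)
      · intro y hy y' hy' he
        have hy1 := mem_filter.1 (mem_coe.1 hy)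
        have hy2 := mem_filter.1 (mem_coe.1 hy')
        funext i
        by_cases hi : i ∈ J
        · exact congrFun he ⟨i, hi⟩
        · rw [hy1.2.2 i hi, hy2.2.2 i hi])
  rw [image_image, hc] at key
  exact key

theorem two_pow_pred (k : ℕ) (hk : 2 ≤ k) : 2 ^ k = 2 * 2 ^ (k - 1) := by
  obtain ⟨j, rfl⟩ : ∃ j, k = j + 1 := ⟨k - 1, by omega⟩
  rw [Nat.add_sub_cancel, pow_succ]; ring

theorem numA (k m n C : ℕ) (hk : 2 ≤ k) (hn : 2 ≤ n) (hC : 4 ^ (k * 2 ^ k) ≤ C)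
    (h : C * m ^ (k * 2 ^ k) ≤ n ^ (3 * 2 ^ (k - 1) - 1)) (h2 : n ^ 2 ≤ 4 ^ k * m ^ k) : False := by
  have h3 : n ^ (2 * 2 ^ k) ≤ n ^ (3 * 2 ^ (k - 1) - 1) := by
    calc n ^ (2 * 2 ^ k) = (n ^ 2) ^ (2 ^ k) := by rw [pow_mul]
      _ ≤ (4 ^ k * m ^ k) ^ (2 ^ k) := Nat.pow_le_pow_left h2 _
      _ = 4 ^ (k * 2 ^ k) * m ^ (k * 2 ^ k) := by rw [mul_pow, ← pow_mul, ← pow_mul]
      _ ≤ C * m ^ (k * 2 ^ k) := Nat.mul_le_mul_right _ hC
      _ ≤ _ := h
  have h4 := (Nat.pow_le_pow_iff_right (by omega : 1 < n)).1 h3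
  have h5 := two_pow_pred k hk
  have h6 : 1 ≤ 2 ^ (k - 1) := Nat.one_le_two_pow
  omega

theorem numB (k m n C : ℕ) (hk : 2 ≤ k) (hn : 1 ≤ n) (hC : (2 ^ k) ^ (k * 2 ^ k) ≤ C)
    (h : C * m ^ (k * 2 ^ k) ≤ n ^ (3 * 2 ^ (k - 1) - 1)) : 2 ^ k * m ≤ n := by
  by_contra hcon
  push Not at hcon
  have h0 : k * 2 ^ k ≠ 0 := by positivity
  have h1 : n ^ (k * 2 ^ k) < (2 ^ k * m) ^ (k * 2 ^ k) := Nat.pow_lt_pow_left hcon h0
  have h2 : (2 ^ k * m) ^ (k * 2 ^ k) ≤ n ^ (3 * 2 ^ (k - 1) - 1) := by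
    rw [mul_pow]
    exact (Nat.mul_le_mul_right _ hC).trans h
  have h3 : n ^ (3 * 2 ^ (k - 1) - 1) ≤ n ^ (k * 2 ^ k) := by
    apply Nat.pow_le_pow_right hn
    have h5 := two_pow_pred k hk
    have h6 : 2 * 2 ^ k ≤ k * 2 ^ k := Nat.mul_le_mul_right _ hk
    omega
  omega

theorem numC (k m n n' C C1 t j j' s p : ℕ) (hm : 1 ≤ m) (hn : 1 ≤ n)
    (ht : t + 1 ≤ k)
    (hnum : (3 * 2 ^ (k - 1) - 1) * (k + t + 1) * 2 ^ t ≤ (3 * 2 ^ t - 1) * (k * 2 ^ k))
    (hC : (2 ^ (3 * 2 ^ k) * C1 * 4 ^ ((k + 1) * 2 ^ k)) ^ (k * 2 ^ k) < C)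
    (h : C * m ^ (k * 2 ^ k) ≤ n ^ (3 * 2 ^ (k - 1) - 1)) (hnn : n ≤ 2 * n')
    (hs : s ≤ 2 ^ (k + 1) * m ^ j) (hp : p ≤ 2 ^ (k + 1) * m ^ j') (hj : j + j' ≤ k + t + 1)
    (hmain : n' ^ (3 * 2 ^ t - 1) ≤ C1 * (s * p) ^ (2 ^ t)) : False := by
  have ht2 : 2 ^ t ≤ 2 ^ k := Nat.pow_le_pow_right (by norm_num) (by omega)
  set C2 := 2 ^ (3 * 2 ^ k) * C1 * 4 ^ ((k + 1) * 2 ^ k) with hC2
  set a := 3 * 2 ^ t - 1 with ha
  set b := (k + t + 1) * 2 ^ t with hb
  set e := 3 * 2 ^ (k - 1) - 1 with he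
  set d := k * 2 ^ k with hd
  have h1 : s * p ≤ 4 ^ (k + 1) * m ^ (k + t + 1) := by
    calc s * p ≤ (2 ^ (k + 1) * m ^ j) * (2 ^ (k + 1) * m ^ j') := Nat.mul_le_mul hs hp
      _ = (2 ^ (k + 1) * 2 ^ (k + 1)) * m ^ (j + j') := by rw [pow_add m]; ring
      _ = 4 ^ (k + 1) * m ^ (j + j') := by rw [← mul_pow]; norm_num
      _ ≤ 4 ^ (k + 1) * m ^ (k + t + 1) :=
        Nat.mul_le_mul_left _ (Nat.pow_le_pow_right hm hj)
  have h2 : n ^ a ≤ C2 * m ^ b := by
    calc n ^ a ≤ (2 * n') ^ a := Nat.pow_le_pow_left hnn _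
      _ = 2 ^ a * n' ^ a := mul_pow _ _ _
      _ ≤ 2 ^ (3 * 2 ^ k) * (C1 * (4 ^ (k + 1) * m ^ (k + t + 1)) ^ (2 ^ t)) := by
        apply Nat.mul_le_mul
        · exact Nat.pow_le_pow_right (by norm_num) (by omega)
        · exact hmain.trans (Nat.mul_le_mul_left _ (Nat.pow_le_pow_left h1 _))
      _ = 2 ^ (3 * 2 ^ k) * C1 * 4 ^ ((k + 1) * 2 ^ t) * m ^ b := by
        rw [mul_pow, ← pow_mul, ← pow_mul, hb]; ring
      _ ≤ 2 ^ (3 * 2 ^ k) * C1 * 4 ^ ((k + 1) * 2 ^ k) * m ^ b := by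
        apply Nat.mul_le_mul_right
        apply Nat.mul_le_mul_left
        exact Nat.pow_le_pow_right (by norm_num) (Nat.mul_le_mul_left _ ht2)
  have h3 : n ^ (a * d) ≤ C2 ^ d * (m ^ d) ^ b := by
    calc n ^ (a * d) = (n ^ a) ^ d := pow_mul _ _ _
      _ ≤ (C2 * m ^ b) ^ d := Nat.pow_le_pow_left h2 _
      _ = C2 ^ d * (m ^ d) ^ b := by rw [mul_pow, ← pow_mul, ← pow_mul, mul_comm b d]
  have h4 : C ^ b * n ^ (a * d) ≤ C2 ^ d * n ^ (a * d) := by
    calc C ^ b * n ^ (a * d) ≤ C ^ b * (C2 ^ d * (m ^ d) ^ b) := Nat.mul_le_mul_left _ h3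
      _ = C2 ^ d * (C * m ^ d) ^ b := by rw [mul_pow]; ring
      _ ≤ C2 ^ d * (n ^ e) ^ b := Nat.mul_le_mul_left _ (Nat.pow_le_pow_left h _)
      _ = C2 ^ d * n ^ (e * b) := by rw [← pow_mul]
      _ ≤ C2 ^ d * n ^ (a * d) := by
        apply Nat.mul_le_mul_left
        apply Nat.pow_le_pow_right hn
        rw [hb, ← mul_assoc]; exact hnum
  have h5 : C ^ b ≤ C2 ^ d := Nat.le_of_mul_le_mul_right h4 (by positivity)
  have h6 : C ≤ C ^ b := by
    apply Nat.le_self_pow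
    rw [hb]; positivity
  omega

/-- `s * (a / b) ≤ a` and `b ≤ a` imply `s ≤ 2 b`. -/
theorem div_aux (s a b : ℕ) (hb : 0 < b) (hab : b ≤ a) (h : s * (a / b) ≤ a) : s ≤ 2 * b := by
  have h1 : 1 ≤ a / b := (Nat.one_le_div_iff hb).2 hab
  have h2 : a < b * (a / b + 1) := Nat.lt_mul_div_succ a hb
  have h3 : a ≤ (2 * b) * (a / b) := by nlinarith
  exact Nat.le_of_mul_le_mul_right (h.trans h3) (by omega)

theorem t_EL3 (h : S_MIX) (hnum : S_NUM) : S_EL3 := by
  classical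
  intro k hk
  obtain ⟨C1, hC1, hmix⟩ := h k (2 * 4 ^ k) (Nat.mul_pos (by norm_num) (by positivity))
  have aux : ∀ a b c d f : ℕ, ∃ C : ℕ, 8 ≤ C ∧ a ≤ C ∧ b ≤ C ∧ c + 1 ≤ C ∧ d < C ∧ f ≤ C :=
    fun a b c d f => ⟨8 + a + b + (c + 1) + (d + 1) + f, by omega, by omega, by omega, by omega,
      by omega, by omega⟩
  obtain ⟨C, hC8, hC4, hC2k, hCC1, hCC2, hCk⟩ := aux (4 ^ (k * 2 ^ k)) ((2 ^ k) ^ (k * 2 ^ k)) C1
    ((2 ^ (3 * 2 ^ k) * C1 * 4 ^ ((k + 1) * 2 ^ k)) ^ (k * 2 ^ k)) (2 * k)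
  refine ⟨C, by omega, ?_⟩
  intro R _ _ φ hφ X m hm hCX hCm
  by_contra hcon
  push Not at hcon
  obtain ⟨hS, hP⟩ := hcon
  have hnn' : X.card ≤ (X.erase 0).card + 1 := by
    have := pred_card_le_card_erase (s := X) (a := (0 : R))
    omega
  set n := X.card with hn
  set X' := X.erase 0 with hX'
  set n' := X'.card with hn'
  have hX'X : X' ⊆ X := erase_subset _ _
  have hn'n : n' ≤ n := card_le_card hX'X
  have htup : tup X' k ⊆ tup X k := fun x hx => mem_tup.2 fun i => hX'X (mem_tup.1 hx i)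
  have hbern : n ^ k ≤ 2 * n' ^ k := bern n n' k (by omega) hnn' (by omega)
  set K : ℕ → ℕ := fun j => n ^ j / (2 ^ k * m ^ j) with hK
  let FS : Finset (Fin k) → (Fin k → R) → Finset (Fin k → R) := fun J x =>
    (tup X k).filter (fun y => ∑ i, y i = ∑ i, x i ∧ ∀ i, i ∉ J → y i = x i)
  let FP : Finset (Fin k) → (Fin k → R) → Finset (Fin k → R) := fun J x =>
    (tup X' k).filter (fun y => ∏ i, y i = ∏ i, x i ∧ ∀ i, i ∉ J → y i = x i)
  let Wf : Finset (Fin k) × Finset (Fin k) → Finset (Fin k → R) := fun p =>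
    (tup X' k).filter (fun x => (p.1.Nonempty ∧ K p.1.card < (FS p.1 x).card) ∧
      (p.2.Nonempty ∧ K p.2.card < (FP p.2 x).card))
  have hcover : tup X' k ⊆ poorAS X k K ∪ poorAP X' k K ∪
      (univ : Finset (Finset (Fin k) × Finset (Fin k))).biUnion Wf := by
    intro x hx
    by_cases h1 : x ∈ poorAS X k K
    · exact mem_union_left _ (mem_union_left _ h1)
    by_cases h2 : x ∈ poorAP X' k K
    · exact mem_union_left _ (mem_union_right _ h2)
    apply mem_union_right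
    have h1' : ∃ J : Finset (Fin k), J.Nonempty ∧ K J.card < (FS J x).card := by
      by_contra hc
      push Not at hc
      apply h1
      unfold poorAS
      exact mem_filter.2 ⟨htup hx, fun J hJ => hc J hJ⟩
    have h2' : ∃ J : Finset (Fin k), J.Nonempty ∧ K J.card < (FP J x).card := by
      by_contra hc
      push Not at hc
      apply h2
      unfold poorAP
      exact mem_filter.2 ⟨hx, fun J hJ => hc J hJ⟩
    obtain ⟨J, hJ, hJ1⟩ := h1'
    obtain ⟨J', hJ', hJ1'⟩ := h2'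
    exact mem_biUnion.2 ⟨(J, J'), mem_univ _, mem_filter.2 ⟨hx, ⟨hJ, hJ1⟩, ⟨hJ', hJ1'⟩⟩⟩
  have hcnt : n' ^ k ≤ (poorAS X k K).card + (poorAP X' k K).card + ∑ p, (Wf p).card := by
    rw [hn', ← tup_card X' k]
    refine (card_le_card hcover).trans ((card_union_le _ _).trans ?_)
    exact Nat.add_le_add (card_union_le _ _) card_biUnion_le
  obtain ⟨⟨J, J'⟩, hW⟩ : ∃ p, n' ^ k ≤ 2 * 4 ^ k * (Wf p).card := by
    by_contra hc
    push Not at hc
    have h1 : 2 * 4 ^ k * ∑ p, (Wf p).card ≤ 4 ^ k * n' ^ k := by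
      rw [mul_sum]
      calc ∑ p, 2 * 4 ^ k * (Wf p).card ≤ ∑ p : Finset (Fin k) × Finset (Fin k), n' ^ k :=
            sum_le_sum fun p _ => (hc p).le
        _ = 4 ^ k * n' ^ k := by
            rw [sum_const, smul_eq_mul, card_univ, Fintype.card_prod, Fintype.card_finset,
              Fintype.card_fin, ← mul_pow]; norm_num
    have h2 : 2 * ∑ p, (Wf p).card ≤ n' ^ k := by
      have h3 : 4 ^ k * (2 * ∑ p, (Wf p).card) ≤ 4 ^ k * n' ^ k := by
        calc 4 ^ k * (2 * ∑ p, (Wf p).card) = 2 * 4 ^ k * ∑ p, (Wf p).card := by ring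
          _ ≤ _ := h1
      exact Nat.le_of_mul_le_mul_left h3 (by positivity)
    have h4 : 8 * (poorAS X k K).card < 2 * n' ^ k :=
      (Nat.mul_le_mul_right _ hC8).trans_lt (hS.trans_le hbern)
    have h5 : 8 * (poorAP X' k K).card < 2 * n' ^ k :=
      (Nat.mul_le_mul_right _ hC8).trans_lt (hP.trans_le hbern)
    omega
  have hn'pos : 1 ≤ n' := by omega
  have hWne : (Wf (J, J')).Nonempty := by
    rw [← card_pos]
    by_contra hc
    have h0 : (Wf (J, J')).card = 0 := by omega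
    rw [h0, mul_zero] at hW
    have : 1 ≤ n' ^ k := Nat.one_le_pow _ _ hn'pos
    omega
  obtain ⟨x0, hx0⟩ := hWne
  obtain ⟨hx0t, ⟨hJ, hJK⟩, ⟨hJ', hJK'⟩⟩ := mem_filter.1 hx0
  have hB : 2 ^ k * m ≤ n := numB k m n C hk (by omega) hC2k hCm
  have small : ∀ j, 1 ≤ j → K j < n ^ (j - 1) → k < 2 * j := by
    intro j hj hKj
    by_contra hc
    push Not at hc
    have h1 : n ^ j < (2 ^ k * m ^ j) * (K j + 1) := Nat.lt_mul_div_succ _ (by positivity)
    have h2 : n ^ j < (2 ^ k * m ^ j) * n ^ (j - 1) := h1.trans_le (Nat.mul_le_mul_left _ hKj)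
    have h3 : n < 2 ^ k * m ^ j := by
      have h4 : n * n ^ (j - 1) < (2 ^ k * m ^ j) * n ^ (j - 1) := by
        have : n * n ^ (j - 1) = n ^ j := by rw [← pow_succ']; congr 1; omega
        rw [this]; exact h2
      exact Nat.lt_of_mul_lt_mul_right h4
    apply numA k m n C hk (by omega) hC4 hCm
    calc n ^ 2 ≤ (2 ^ k * m ^ j) ^ 2 := Nat.pow_le_pow_left h3.le 2
      _ = 4 ^ k * m ^ (2 * j) := by
        rw [mul_pow, ← pow_mul, ← pow_mul, mul_comm k 2, mul_comm j 2, pow_mul 2 2 k]; norm_num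
      _ ≤ 4 ^ k * m ^ k := Nat.mul_le_mul_left _ (Nat.pow_le_pow_right hm hc)
  have hφ0 : ∀ x : R, φ x = 0 → x = 0 := fun x hx => hφ (by rw [hx, map_zero])
  have hcancel : ∀ a b c : R, c ≠ 0 → a * c = b * c → a = b := by
    intro a b c hc hab
    apply hφ
    have h1 := congrArg φ hab
    rw [map_mul, map_mul] at h1
    exact mul_right_cancel₀ (fun h => hc (hφ0 _ h)) h1
  have hprod : ∀ (s : Finset (Fin k)) (x : Fin k → R), x ∈ tup X' k → ∏ i ∈ s, x i ≠ 0 := by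
    intro s x hx h0
    have h1 : φ (∏ i ∈ s, x i) = 0 := by rw [h0, map_zero]
    rw [map_prod] at h1
    obtain ⟨i, _, hi⟩ := prod_eq_zero_iff.1 h1
    exact (mem_erase.1 (mem_tup.1 hx i)).1 (hφ0 _ hi)
  have cS : (FS J x0).card ≤ n ^ (J.card - 1) := by
    obtain ⟨l, hl⟩ := hJ
    apply cntB X k (FS J x0) x0 J l hl (filter_subset _ _)
    · intro y hy; exact (mem_filter.1 hy).2.2
    · intro y hy y' hy' hyy
      have e1 := (mem_filter.1 hy).2.1
      have e2 := (mem_filter.1 hy').2.1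
      have e3 : ∑ i, y i = ∑ i, y' i := e1.trans e2.symm
      rw [← add_sum_erase univ y (mem_univ l), ← add_sum_erase univ y' (mem_univ l)] at e3
      have e4 : ∑ i ∈ univ.erase l, y i = ∑ i ∈ univ.erase l, y' i :=
        sum_congr rfl fun i hi => hyy i (mem_erase.1 hi).1
      rw [e4] at e3
      have e5 := add_right_cancel e3
      funext i
      by_cases hi : i = l
      · rw [hi]; exact e5
      · exact hyy i hi
  have cP : (FP J' x0).card ≤ n' ^ (J'.card - 1) := by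
    obtain ⟨l, hl⟩ := hJ'
    apply cntB X' k (FP J' x0) x0 J' l hl (filter_subset _ _)
    · intro y hy; exact (mem_filter.1 hy).2.2
    · intro y hy y' hy' hyy
      have e1 := (mem_filter.1 hy).2.1
      have e2 := (mem_filter.1 hy').2.1
      have e3 : ∏ i, y i = ∏ i, y' i := e1.trans e2.symm
      rw [← mul_prod_erase univ y (mem_univ l), ← mul_prod_erase univ y' (mem_univ l)] at e3
      have e4 : ∏ i ∈ univ.erase l, y i = ∏ i ∈ univ.erase l, y' i :=
        prod_congr rfl fun i hi => hyy i (mem_erase.1 hi).1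
      rw [e4] at e3
      have e5 := hcancel _ _ _ (hprod _ y' (mem_filter.1 hy').1) e3
      funext i
      by_cases hi : i = l
      · rw [hi]; exact e5
      · exact hyy i hi
  have hj : k < 2 * J.card := small _ (card_pos.2 hJ) (hJK.trans_le cS)
  have hj' : k < 2 * J'.card :=
    small _ (card_pos.2 hJ') (hJK'.trans_le (cP.trans (Nat.pow_le_pow_left hn'n _)))
  have hun : J.card + J'.card ≤ k + (J ∩ J').card := by
    have h1 := card_union_add_card_inter J J'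
    have h2 : (J ∪ J').card ≤ k := by
      have := card_le_univ (J ∪ J')
      rwa [Fintype.card_fin] at this
    omega
  obtain ⟨t, ht⟩ : ∃ t, (J ∩ J').card = t + 1 := ⟨(J ∩ J').card - 1, by omega⟩
  have htk : t + 1 ≤ k := by
    rw [← ht]
    have := card_le_univ (J ∩ J')
    rwa [Fintype.card_fin] at this
  have hmain := hmix R φ hφ X' (Wf (J, J')) J J' t ht (by omega) (by simp [hX'])
    (filter_subset _ _) hW
  have rS : ((Wf (J, J')).image (fun x => ∑ i ∈ J, x i)).card * K J.card ≤ n ^ J.card := by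
    have key := richJ X k (K J.card) J (fun u => ∑ i, u i) (Wf (J, J'))
      ((filter_subset _ _).trans htup) (by
        intro x hx
        have hx' := (mem_filter.1 hx).2.1.2
        refine hx'.trans_le (card_le_card ?_)
        intro y hy
        have hy' := mem_filter.1 hy
        refine mem_filter.2 ⟨hy'.1, ?_, hy'.2.2⟩
        have e1 := hy'.2.1
        rw [← sum_add_sum_compl J y, ← sum_add_sum_compl J x] at e1
        have e2 : ∑ i ∈ Jᶜ, y i = ∑ i ∈ Jᶜ, x i :=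
          sum_congr rfl fun i hi => hy'.2.2 i (mem_compl.1 hi)
        rw [e2] at e1
        have e3 := add_right_cancel e1
        show ∑ i : {i // i ∈ J}, y i.1 = ∑ i : {i // i ∈ J}, x i.1
        rw [sum_coe_sort J y, sum_coe_sort J x]; exact e3)
    have e : (fun x : Fin k → R => ∑ i : {i // i ∈ J}, x i.1) = fun x => ∑ i ∈ J, x i := by
      funext x; exact sum_coe_sort J x
    simp only [e] at key
    exact key
  have rP : ((Wf (J, J')).image (fun x => ∏ i ∈ J', x i)).card * K J'.card ≤ n ^ J'.card := by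
    refine le_trans ?_ (Nat.pow_le_pow_left hn'n _)
    have key := richJ X' k (K J'.card) J' (fun u => ∏ i, u i) (Wf (J, J'))
      (filter_subset _ _) (by
        intro x hx
        have hx' := (mem_filter.1 hx).2.2.2
        refine hx'.trans_le (card_le_card ?_)
        intro y hy
        have hy' := mem_filter.1 hy
        refine mem_filter.2 ⟨hy'.1, ?_, hy'.2.2⟩
        have e1 := hy'.2.1
        rw [← prod_mul_prod_compl J' y, ← prod_mul_prod_compl J' x] at e1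
        have e2 : ∏ i ∈ J'ᶜ, y i = ∏ i ∈ J'ᶜ, x i :=
          prod_congr rfl fun i hi => hy'.2.2 i (mem_compl.1 hi)
        rw [e2] at e1
        have e3 := hcancel _ _ _ (hprod _ x (mem_filter.1 hx).1) e1
        show ∏ i : {i // i ∈ J'}, y i.1 = ∏ i : {i // i ∈ J'}, x i.1
        rw [prod_coe_sort J' y, prod_coe_sort J' x]; exact e3)
    have e : (fun x : Fin k → R => ∏ i : {i // i ∈ J'}, x i.1) = fun x => ∏ i ∈ J', x i := by
      funext x; exact prod_coe_sort J' x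
    simp only [e] at key
    exact key
  have hpw : ∀ j, 1 ≤ j → 2 ^ k * m ^ j ≤ n ^ j := by
    intro j hj
    calc 2 ^ k * m ^ j ≤ (2 ^ k) ^ j * m ^ j :=
          Nat.mul_le_mul_right _ (Nat.le_self_pow (by omega) _)
      _ = (2 ^ k * m) ^ j := by rw [mul_pow]
      _ ≤ n ^ j := Nat.pow_le_pow_left hB _
  have hs := div_aux _ _ _ (by positivity) (hpw J.card (card_pos.2 hJ)) rS
  have hp := div_aux _ _ _ (by positivity) (hpw J'.card (card_pos.2 hJ')) rP
  exact numC k m n n' C C1 t J.card J'.card _ _ hm (by omega) htk (hnum k t hk htk) hCC2 hCm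
    (by omega) (hs.trans_eq (by ring)) (hp.trans_eq (by ring)) (by omega) hmain

end Pool.Agent.W14.RS2
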